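import Pool.Agent.Y402.PL.Stm2
import Pool.Agent.Y409.PL.CH

/-!
# Project PL (helper402), job CH2: the greedy chain for all `0 < k' < k`
(adapted from the chain of helper409)
-/

set_option autoImplicit false

namespace Pool.Agent.Y248.PL

open Pointwise Finset Pool.Agent.Y402.PL Pool.Agent.Y409.PL

/-- the increment at level `k'` -/
lemma level (hP : S_PLU) (n m k k' : ℕ) (B W X : Finset (ℕ × ℕ)) (hk' : 0 < k') (hkk : k' < k)
    (l : ℝ) (hl : 0 ≤ l)
    (hmin : ∀ Z ⊆ X, l * (Z.card : ℝ) ≤ (((Z + k • B) ∩ (box n m \ (W + k • B))).card : ℝ)) :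
    l ^ ((k' : ℝ) / (k : ℝ)) * (X.card : ℝ) ≤
      (((X + k' • B) ∩ (box n m \ (W + k' • B))).card : ℝ) := by
  have hk0 : (0 : ℝ) < k := by exact_mod_cast (by omega : 0 < k)
  have hk0' : (0 : ℝ) < k' := by exact_mod_cast hk'
  rcases hl.eq_or_lt with h0 | hpos
  · rw [← h0, Real.zero_rpow (by positivity), zero_mul]
    exact Nat.cast_nonneg _
  have hC : 0 < l ^ (1 / (k : ℝ)) := Real.rpow_pos_of_pos hpos _
  have hCk : (l ^ (1 / (k : ℝ))) ^ k = l := by
    rw [← Real.rpow_natCast, ← Real.rpow_mul hpos.le, one_div, inv_mul_cancel₀ hk0.ne',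
      Real.rpow_one]
  have hCk' : (l ^ (1 / (k : ℝ))) ^ k' = l ^ ((k' : ℝ) / (k : ℝ)) := by
    rw [← Real.rpow_natCast, ← Real.rpow_mul hpos.le]
    congr 1
    ring
  have h := hP k X B (box n m \ (W + k • B)) (l ^ (1 / (k : ℝ))) hC
    (fun Z hZ => by rw [hCk]; exact hmin Z hZ) k' hk' hkk X (Subset.refl _)
    ((X + k' • B) ∩ (box n m \ (W + k' • B))) (by
      rintro y hy ⟨c, hc, hyc⟩
      rw [mem_sdiff] at hyc
      refine mem_inter.2 ⟨hy, mem_sdiff.2 ⟨box_down _ _ hyc.1, fun h1 => hyc.2 ?_⟩⟩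
      have h2 := add_mem_add h1 hc
      rw [add_assoc, ← add_nsmul] at h2
      have h3 : k' + (k - k') = k := by omega
      rwa [h3] at h2)
  rwa [hCk'] at h

lemma chain2 (hP : S_PLU) (n m k k' : ℕ) (A B : Finset (ℕ × ℕ)) (hk' : 0 < k') (hkk : k' < k) :
    ∀ N : ℕ, ∀ W : Finset (ℕ × ℕ), W ⊆ A → (A \ W).card ≤ N →
      ∀ κ : ℝ, 0 ≤ κ →
      (∀ Z ⊆ A \ W, κ * (Z.card : ℝ) ≤
        (((Z + k • B) ∩ (box n m \ (W + k • B))).card : ℝ)) →
    ∃ (r : ℕ) (V : ℕ → Finset (ℕ × ℕ)) (L : ℕ → ℝ),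
      V 0 = W ∧ V r = A ∧ (∀ j, V j ⊆ V (j + 1)) ∧ Monotone L ∧ (∀ j, 0 ≤ L j) ∧ κ ≤ L 0 ∧
      ∀ j < r,
        (((V j + k' • B) ∩ box n m).card : ℝ)
              + L j ^ ((k' : ℝ) / (k : ℝ)) * (((V (j + 1)).card : ℝ) - ((V j).card : ℝ))
            ≤ (((V (j + 1) + k' • B) ∩ box n m).card : ℝ) ∧
        (((V (j + 1) + k • B) ∩ box n m).card : ℝ)
            ≤ (((V j + k • B) ∩ box n m).card : ℝ)
              + L j * (((V (j + 1)).card : ℝ) - ((V j).card : ℝ)) := by
  classical
  intro N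
  induction N with
  | zero =>
    intro W hW hc κ hκ _
    have : A \ W = ∅ := card_eq_zero.1 (by omega)
    have hWA : W = A := Subset.antisymm hW (sdiff_eq_empty_iff_subset.1 this)
    exact ⟨0, fun _ => A, fun _ => κ, hWA.symm, rfl, fun _ => Subset.refl _,
      monotone_const, fun _ => hκ, le_refl _, fun j hj => absurd hj (Nat.not_lt_zero _)⟩
  | succ N ih =>
    intro W hW hc κ hκ hlow
    rcases Finset.eq_empty_or_nonempty (A \ W) with he | hne
    · have hWA : W = A := Subset.antisymm hW (sdiff_eq_empty_iff_subset.1 he)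
      exact ⟨0, fun _ => A, fun _ => κ, hWA.symm, rfl, fun _ => Subset.refl _,
        monotone_const, fun _ => hκ, le_refl _, fun j hj => absurd hj (Nat.not_lt_zero _)⟩
    -- the minimising set
    set R1 := box n m \ (W + k • B) with hR1
    obtain ⟨X, hXm, hXmin⟩ := Finset.exists_min_image ((A \ W).powerset.filter (·.Nonempty))
      (fun X => (((X + k • B) ∩ R1).card : ℝ) / (X.card : ℝ))
      ⟨A \ W, mem_filter.2 ⟨mem_powerset.2 (Subset.refl _), hne⟩⟩
    rw [mem_filter, mem_powerset] at hXm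
    obtain ⟨hXs, hXne⟩ := hXm
    set K0 : ℝ := (((X + k • B) ∩ R1).card : ℝ) / (X.card : ℝ) with hK0
    have hXpos : (0 : ℝ) < (X.card : ℝ) := by exact_mod_cast hXne.card_pos
    have hK0nn : 0 ≤ K0 := div_nonneg (Nat.cast_nonneg _) (Nat.cast_nonneg _)
    have hXeq : K0 * (X.card : ℝ) = (((X + k • B) ∩ R1).card : ℝ) := by
      rw [hK0, div_mul_cancel₀ _ hXpos.ne']
    have hmin : ∀ Z ⊆ A \ W, K0 * (Z.card : ℝ) ≤ (((Z + k • B) ∩ R1).card : ℝ) := by
      intro Z hZ
      rcases Finset.eq_empty_or_nonempty Z with hZe | hZne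
      · subst hZe
        simp
      · have h1 := hXmin Z (mem_filter.2 ⟨mem_powerset.2 hZ, hZne⟩)
        have hZpos : (0 : ℝ) < (Z.card : ℝ) := by exact_mod_cast hZne.card_pos
        have h2 := (le_div_iff₀ hZpos).1 h1
        exact h2
    have hκK : κ ≤ K0 := by
      have h1 := hlow X hXs
      rw [← hXeq] at h1
      exact le_of_mul_le_mul_right h1 hXpos
    -- the next set
    set W' := W ∪ X with hW'
    have hdisj : Disjoint W X := by
      rw [disjoint_left]
      intro x hx hx'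
      exact (mem_sdiff.1 (hXs hx')).2 hx
    have hW'A : W' ⊆ A := union_subset hW (hXs.trans sdiff_subset)
    have hcard' : (A \ W').card ≤ N := by
      have h1 : A \ W' ⊆ (A \ W) \ X := by
        intro x hx
        simp only [hW', mem_sdiff, mem_union, not_or] at hx ⊢
        exact ⟨⟨hx.1, hx.2.1⟩, hx.2.2⟩
      have h2 := card_le_card h1
      have h3 := card_sdiff_add_card_eq_card hXs
      have h4 := hXne.card_pos
      omega
    have hlow' : ∀ Z ⊆ A \ W', K0 * (Z.card : ℝ) ≤
        (((Z + k • B) ∩ (box n m \ (W' + k • B))).card : ℝ) := by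
      intro Z hZ
      have hZd : Disjoint X Z := by
        rw [disjoint_left]
        intro x hx hx'
        exact (mem_sdiff.1 (hZ hx')).2 (mem_union_right _ hx)
      have hXZ : X ∪ Z ⊆ A \ W := by
        refine union_subset hXs (fun x hx => ?_)
        have := mem_sdiff.1 (hZ hx)
        exact mem_sdiff.2 ⟨this.1, fun h => this.2 (mem_union_left _ h)⟩
      have h1 := hmin _ hXZ
      have h2 : ((X ∪ Z + k • B) ∩ R1) ⊆
          ((X + k • B) ∩ R1) ∪ ((Z + k • B) ∩ (box n m \ (W' + k • B))) := by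
        intro p hp
        rw [mem_inter, union_add, mem_union] at hp
        rw [mem_union]
        by_cases hpX : p ∈ X + k • B
        · exact Or.inl (mem_inter.2 ⟨hpX, hp.2⟩)
        · right
          have hpZ : p ∈ Z + k • B := hp.1.resolve_left hpX
          have hp2 := mem_sdiff.1 hp.2
          refine mem_inter.2 ⟨hpZ, mem_sdiff.2 ⟨hp2.1, ?_⟩⟩
          rw [hW', union_add, mem_union]
          rintro (h | h)
          · exact hp2.2 h
          · exact hpX h
      have h3 := (card_le_card h2).trans (card_union_le _ _)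
      have h3' : (((X ∪ Z + k • B) ∩ R1).card : ℝ) ≤ (((X + k • B) ∩ R1).card : ℝ) +
          (((Z + k • B) ∩ (box n m \ (W' + k • B))).card : ℝ) := by exact_mod_cast h3
      rw [card_union_of_disjoint hZd] at h1
      push_cast at h1
      rw [mul_add] at h1
      linarith
    obtain ⟨r, V, K, hV0, hVr, hVm, hKm, hKn, hK0', hst⟩ := ih W' hW'A hcard' K0 hK0nn hlow'
    refine ⟨r + 1, fun j => Nat.casesOn j W V, fun j => Nat.casesOn j K0 K, rfl, hVr, ?_, ?_, ?_,
      hκK, ?_⟩
    · intro j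
      cases j with
      | zero =>
        change W ⊆ V 0
        rw [hV0]
        exact subset_union_left
      | succ j => exact hVm j
    · apply monotone_nat_of_le_succ
      intro j
      cases j with
      | zero => exact hK0'
      | succ j => exact hKm (Nat.le_succ j)
    · intro j
      cases j with
      | zero => exact hK0nn
      | succ j => exact hKn j
    · intro j hj
      cases j with
      | succ j => exact hst j (by omega)
      | zero =>
        change (((W + k' • B) ∩ box n m).card : ℝ)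
              + K0 ^ ((k' : ℝ) / (k : ℝ)) * (((V 0).card : ℝ) - (W.card : ℝ))
            ≤ (((V 0 + k' • B) ∩ box n m).card : ℝ) ∧
          (((V 0 + k • B) ∩ box n m).card : ℝ)
            ≤ (((W + k • B) ∩ box n m).card : ℝ)
              + K0 * (((V 0).card : ℝ) - (W.card : ℝ))
        have hcW : (W'.card : ℝ) - (W.card : ℝ) = (X.card : ℝ) := by
          rw [hW', card_union_of_disjoint hdisj]
          push_cast
          ring
        rw [hV0, hcW, hW', union_add, union_add, dec, dec]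
        push_cast
        constructor
        · have := level hP n m k k' B W X hk' hkk K0 hK0nn
            (fun Z hZ => hmin Z (hZ.trans hXs))
          linarith
        · rw [hXeq]

theorem mainCH2 : S_PLU → S_CH2 := by
  intro hP n m k k' A B hk' hkk _ _
  have hk0 : (0 : ℝ) < k := by exact_mod_cast (by omega : 0 < k)
  have hk0' : (0 : ℝ) < k' := by exact_mod_cast hk'
  obtain ⟨r, V, L, h1, h2, h3, h4, h5, -, h6⟩ := chain2 hP n m k k' A B hk' hkk (A \ ∅).card ∅
    (empty_subset _) (le_refl _) 0 (le_refl _) (fun Z _ => by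
      rw [zero_mul]; exact Nat.cast_nonneg _)
  refine ⟨r, V, fun j => L j ^ ((k' : ℝ) / (k : ℝ)), h1, h2, h3, ?_, ?_, ?_⟩
  · intro i j hij
    exact Real.rpow_le_rpow (h5 i) (h4 hij) (by positivity)
  · intro j
    exact Real.rpow_nonneg (h5 j) _
  · intro j hj
    refine ⟨(h6 j hj).1, ?_⟩
    have h7 : (L j ^ ((k' : ℝ) / (k : ℝ))) ^ ((k : ℝ) / (k' : ℝ)) = L j := by
      rw [← Real.rpow_mul (h5 j)]
      have h8 : (k' : ℝ) / (k : ℝ) * ((k : ℝ) / (k' : ℝ)) = 1 := by field_simp
      rw [h8, Real.rpow_one]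
    simp only
    rw [h7]
    exact (h6 j hj).2

end Pool.Agent.Y248.PL
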